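import Mathlib
import Pool.Agent.H27.RC.Stmts

/-!
# Project RC, module GEN: generic matrices for families over a set of simplices
-/

open scoped ENNReal NNReal InnerProductSpace ComplexOrder
open Filter Topology

noncomputable section

namespace Pool.Agent.H36.RC

open Pool.Agent.H27.RC Classical

theorem gen_cell {ι : Type} [Fintype ι] (d : ℕ) (K : Set (ι → ℝ))
    (hK : ∀ p ∈ K, (∀ i, 0 ≤ p i) ∧ ∑ i, p i = 1 ∧ {i | p i ≠ 0}.ncard ≤ d + 1)
    (G : ℕ) (hG : 0 < G) (σ : Finset ι) :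
    ∃ S : Finset (ι → ℝ), ((S : Set (ι → ℝ)) ⊆ K) ∧ S.card ≤ (G + 1) ^ d ∧
      ∀ p ∈ K, Finset.univ.filter (fun i => p i ≠ 0) = σ →
        ∃ p' ∈ S, ∑ i, |p i - p' i| ≤ 2 * d / G := by
  by_cases hne : ∃ p₀ ∈ K, Finset.univ.filter (fun i => p₀ i ≠ 0) = σ
  swap
  · refine ⟨∅, by simp, by simp, fun p hp hps => absurd ⟨p, hp, hps⟩ hne⟩
  obtain ⟨p₀, hp₀, hp₀s⟩ := hne
  have hcard : σ.card ≤ d + 1 := by
    have h1 := (hK p₀ hp₀).2.2
    rw [← hp₀s]
    have h2 : {i | p₀ i ≠ 0} = ((Finset.univ.filter (fun i => p₀ i ≠ 0) : Finset ι) : Set ι) := by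
      ext i; simp
    rw [h2, Set.ncard_coe_finset] at h1
    exact h1
  have hσne : σ.Nonempty := by
    by_contra h
    rw [Finset.not_nonempty_iff_eq_empty] at h
    rw [h] at hp₀s
    have h1 : ∀ i, p₀ i = 0 := by
      intro i
      by_contra hi
      have : i ∈ (Finset.univ.filter (fun i => p₀ i ≠ 0) : Finset ι) := by simp [hi]
      rw [hp₀s] at this
      simp at this
    have h2 := (hK p₀ hp₀).2.1
    simp [h1] at h2
  obtain ⟨i₀, hi₀⟩ := hσne
  have hτ : (σ.erase i₀).card ≤ d := by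
    rw [Finset.card_erase_of_mem hi₀]; omega
  set τ := σ.erase i₀ with hτdef
  let T : Finset (ι → ℕ) := Fintype.piFinset (fun i => if i ∈ τ then Finset.range (G + 1) else {0})
  have hT : T.card ≤ (G + 1) ^ d := by
    rw [Fintype.card_piFinset]
    have : ∀ i, (if i ∈ τ then Finset.range (G + 1) else {0}).card = if i ∈ τ then G + 1 else 1 := by
      intro i
      split_ifs <;> simp
    rw [Finset.prod_congr rfl (fun i _ => this i), Finset.prod_ite_mem, Finset.univ_inter,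
      Finset.prod_const]
    exact Nat.pow_le_pow_right (by omega) hτ
  let code : (ι → ℝ) → (ι → ℕ) := fun p i => if i ∈ τ then ⌊(G : ℝ) * p i⌋₊ else 0
  let Kσ : Set (ι → ℝ) := {p | p ∈ K ∧ Finset.univ.filter (fun i => p i ≠ 0) = σ}
  have hle1 : ∀ p ∈ K, ∀ i, p i ≤ 1 := by
    intro p hp i
    rw [← (hK p hp).2.1]
    exact Finset.single_le_sum (f := p) (fun j _ => (hK p hp).1 j) (Finset.mem_univ i)
  have hmaps : ∀ p ∈ Kσ, code p ∈ T := by
    intro p hp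
    rw [Fintype.mem_piFinset]
    intro i
    by_cases hi : i ∈ τ
    · simp only [code, hi, if_true, Finset.mem_range]
      have h1 : (G : ℝ) * p i ≤ G := by
        have := hle1 p hp.1 i
        have hG' : (0 : ℝ) ≤ G := by positivity
        nlinarith
      have h2 : ⌊(G : ℝ) * p i⌋₊ ≤ G := Nat.floor_le_of_le h1
      omega
    · simp [code, hi]
  obtain ⟨s', hs'K, hbij⟩ := (Set.surjOn_image code Kσ).exists_bijOn_subset
  have hfin : s'.Finite := by
    refine Set.Finite.of_finite_image ?_ hbij.injOn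
    rw [hbij.image_eq]
    refine T.finite_toSet.subset ?_
    rintro _ ⟨p, hp, rfl⟩
    exact hmaps p hp
  refine ⟨hfin.toFinset, ?_, ?_, ?_⟩
  · intro p hp
    rw [Set.Finite.coe_toFinset] at hp
    exact (hs'K hp).1
  · refine (Finset.card_le_card_of_injOn code ?_ ?_).trans hT
    · intro p hp
      rw [Set.Finite.coe_toFinset] at hp
      exact hmaps p (hs'K hp)
    · intro p hp q hq h
      rw [Set.Finite.coe_toFinset] at hp hq
      exact hbij.injOn hp hq h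
  · intro p hp hps
    obtain ⟨p', hp's, hp'c⟩ := hbij.surjOn (Set.mem_image_of_mem code (show p ∈ Kσ from ⟨hp, hps⟩))
    refine ⟨p', by rw [Set.Finite.mem_toFinset]; exact hp's, ?_⟩
    have hp' := hs'K hp's
    have hzero : ∀ i, i ∉ σ → |p i - p' i| = 0 := by
      intro i hi
      have h1 : p i = 0 := by
        by_contra h
        exact hi (by rw [← hps]; simp [h])
      have h2 : p' i = 0 := by
        by_contra h
        exact hi (by rw [← hp'.2]; simp [h])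
      rw [h1, h2]; simp
    have hGpos : (0 : ℝ) < G := by exact_mod_cast hG
    have hτle : ∀ i ∈ τ, |p i - p' i| ≤ 1 / G := by
      intro i hi
      have h1 : code p' i = code p i := by rw [hp'c]
      simp only [code, hi, if_true] at h1
      have a1 := Nat.floor_le (mul_nonneg hGpos.le ((hK p hp).1 i))
      have a2 := Nat.lt_floor_add_one ((G : ℝ) * p i)
      have b1 := Nat.floor_le (mul_nonneg hGpos.le ((hK p' hp'.1).1 i))
      have b2 := Nat.lt_floor_add_one ((G : ℝ) * p' i)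
      rw [h1] at b1 b2
      rw [abs_le, ← neg_div]
      constructor
      · rw [div_le_iff₀ hGpos]; nlinarith
      · rw [le_div_iff₀ hGpos]; nlinarith
    have hsum : ∀ q : ι → ℝ, (∀ i, i ∉ σ → q i = 0) → ∑ i, q i = q i₀ + ∑ i ∈ τ, q i := by
      intro q hq
      rw [← Finset.sum_subset (Finset.subset_univ σ) (fun i _ hi => hq i hi),
        ← Finset.add_sum_erase σ q hi₀]
    have e1 : ∑ i, |p i - p' i| = |p i₀ - p' i₀| + ∑ i ∈ τ, |p i - p' i| :=
      hsum (fun i => |p i - p' i|) hzero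
    have e2 : ∑ i, (p i - p' i) = (p i₀ - p' i₀) + ∑ i ∈ τ, (p i - p' i) :=
      hsum (fun i => p i - p' i) (fun i hi => by
        have := hzero i hi
        exact abs_eq_zero.1 this)
    rw [Finset.sum_sub_distrib, (hK p hp).2.1, (hK p' hp'.1).2.1] at e2
    have e3 : |p i₀ - p' i₀| ≤ ∑ i ∈ τ, |p i - p' i| := by
      have : p i₀ - p' i₀ = - ∑ i ∈ τ, (p i - p' i) := by linarith
      rw [this, abs_neg]
      exact Finset.abs_sum_le_sum_abs _ _
    have e4 : ∑ i ∈ τ, |p i - p' i| ≤ d / G := by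
      refine (Finset.sum_le_card_nsmul τ _ _ hτle).trans ?_
      rw [nsmul_eq_mul, mul_one_div]
      gcongr
    rw [e1]
    calc |p i₀ - p' i₀| + ∑ i ∈ τ, |p i - p' i| ≤ d / G + d / G := by linarith
      _ = 2 * d / G := by ring

/-- a `2 d / G`-dense finite subset of `K` of controlled size -/
theorem gen_cells {ι : Type} [Fintype ι] (d : ℕ) (K : Set (ι → ℝ))
    (hK : ∀ p ∈ K, (∀ i, 0 ≤ p i) ∧ ∑ i, p i = 1 ∧ {i | p i ≠ 0}.ncard ≤ d + 1)
    (G : ℕ) (hG : 0 < G) :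
    ∃ S : Finset (ι → ℝ), ((S : Set (ι → ℝ)) ⊆ K) ∧
      S.card ≤ 2 ^ Fintype.card ι * (G + 1) ^ d ∧
      ∀ p ∈ K, ∃ p' ∈ S, ∑ i, |p i - p' i| ≤ 2 * d / G := by
  choose S hS1 hS2 hS3 using gen_cell d K hK G hG
  refine ⟨Finset.univ.biUnion S, ?_, ?_, ?_⟩
  · intro p hp
    rw [Finset.mem_coe, Finset.mem_biUnion] at hp
    obtain ⟨σ, -, hσ⟩ := hp
    exact hS1 σ hσ
  · refine Finset.card_biUnion_le.trans ?_
    refine (Finset.sum_le_card_nsmul _ _ _ (fun σ _ => hS2 σ)).trans ?_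
    simp
  · intro p hp
    obtain ⟨p', hp', h⟩ := hS3 _ p hp rfl
    exact ⟨p', Finset.mem_biUnion.2 ⟨_, Finset.mem_univ _, hp'⟩, h⟩

theorem gen_core {E F : Type} [NormedAddCommGroup E] [InnerProductSpace ℂ E]
    [NormedAddCommGroup F] [InnerProductSpace ℂ F] (z : F →L[ℂ] E) (hz : ‖z‖ ≤ 1)
    (x x' : F) (v v' : E) (hv : ‖v‖ ≤ 1) (a b k : ℝ) (hx : ‖x - x'‖ ≤ a * ‖x‖)
    (hvv : ‖v - v'‖ ≤ b) (h : k * ‖x'‖ ≤ ‖⟪v, z x'⟫_ℂ‖) (ha : a ≤ 1 / 2) (hk : a + b ≤ k / 4)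
    (hk0 : 0 ≤ k) : k / 4 * ‖x‖ ≤ ‖⟪v', z x⟫_ℂ‖ := by
  have e1 : ⟪v, z x'⟫_ℂ = ⟪v', z x⟫_ℂ - ⟪v, z (x - x')⟫_ℂ + ⟪v - v', z x⟫_ℂ := by
    rw [map_sub, inner_sub_right, inner_sub_left]; ring
  have hzx : ∀ y : F, ‖z y‖ ≤ ‖y‖ := fun y =>
    (z.le_opNorm y).trans (by nlinarith [norm_nonneg y])
  have e2 : ‖⟪v, z (x - x')⟫_ℂ‖ ≤ a * ‖x‖ := by
    refine (norm_inner_le_norm _ _).trans ?_
    calc ‖v‖ * ‖z (x - x')‖ ≤ 1 * ‖x - x'‖ :=
          mul_le_mul hv (hzx _) (norm_nonneg _) zero_le_one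
      _ ≤ a * ‖x‖ := by rw [one_mul]; exact hx
  have e3 : ‖⟪v - v', z x⟫_ℂ‖ ≤ b * ‖x‖ := by
    refine (norm_inner_le_norm _ _).trans ?_
    exact mul_le_mul hvv (hzx x) (norm_nonneg _) ((norm_nonneg _).trans hvv)
  have e4 : ‖⟪v, z x'⟫_ℂ‖ ≤ ‖⟪v', z x⟫_ℂ‖ + a * ‖x‖ + b * ‖x‖ := by
    rw [e1]
    refine (norm_add_le _ _).trans ?_
    have := norm_sub_le ⟪v', z x⟫_ℂ ⟪v, z (x - x')⟫_ℂ
    linarith
  have e5 : ‖x‖ - a * ‖x‖ ≤ ‖x'‖ := by
    have : ‖x‖ ≤ ‖x - x'‖ + ‖x'‖ := by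
      calc ‖x‖ = ‖(x - x') + x'‖ := by rw [sub_add_cancel]
        _ ≤ _ := norm_add_le _ _
    linarith
  have hxn := norm_nonneg x
  have e6 : k * (1 / 2 * ‖x‖) ≤ k * ‖x'‖ := by
    refine mul_le_mul_of_nonneg_left ?_ hk0
    nlinarith
  have e7 : (a + b) * ‖x‖ ≤ k / 4 * ‖x‖ := mul_le_mul_of_nonneg_right hk hxn
  linarith

theorem gen_sum_nonneg {J ι : Type} [Fintype J] [Fintype ι]
    (A : ι → (EuclideanSpace ℂ J →L[ℂ] EuclideanSpace ℂ J)) (hA : ∀ i, 0 ≤ A i) (p : ι → ℝ)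
    (hp : ∀ i, 0 ≤ p i) : 0 ≤ ∑ i, p i • A i :=
  Finset.sum_nonneg fun i _ => smul_nonneg (hp i) (hA i)

theorem gen_sum_dist {J ι : Type} [Fintype J] [Fintype ι]
    (A : ι → (EuclideanSpace ℂ J →L[ℂ] EuclideanSpace ℂ J)) (p q : ι → ℝ) (L : ℝ)
    (hL : ∀ i, ‖A i‖ ≤ L) :
    ‖∑ i, p i • A i - ∑ i, q i • A i‖ ≤ (∑ i, |p i - q i|) * L := by
  rw [← Finset.sum_sub_distrib, Finset.sum_mul]
  refine norm_sum_le_of_le _ fun i _ => ?_
  have e : p i • A i - q i • A i = (p i - q i) • A i := (sub_smul (p i) (q i) (A i)).symm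
  rw [e, norm_smul, Real.norm_eq_abs]
  exact mul_le_mul_of_nonneg_left (hL i) (abs_nonneg _)

/-- the space `E ⊕ ℂ^s` -/
abbrev Gsum (J : Type) [Fintype J] (s : ℕ) :=
  WithLp 2 (EuclideanSpace ℂ J × EuclideanSpace ℂ (Fin s))

def genFst (J : Type) [Fintype J] (s : ℕ) : Gsum J s →ₗ[ℂ] EuclideanSpace ℂ J :=
  (LinearMap.fst ℂ _ _) ∘ₗ (WithLp.linearEquiv 2 ℂ _).toLinearMap

def genP {J : Type} [Fintype J] (s : ℕ) (V : Submodule ℂ (EuclideanSpace ℂ J)) :
    Submodule ℂ (Gsum J s) := V.comap (genFst J s)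

theorem mem_genP {J : Type} [Fintype J] (s : ℕ) (V : Submodule ℂ (EuclideanSpace ℂ J))
    (u : EuclideanSpace ℂ J) (w : EuclideanSpace ℂ (Fin s)) (hu : u ∈ V) :
    (WithLp.toLp 2 (u, w) : Gsum J s) ∈ genP s V := hu

theorem finrank_genP {J : Type} [Fintype J] (s : ℕ) (V : Submodule ℂ (EuclideanSpace ℂ J)) :
    Module.finrank ℂ (genP s V) = Module.finrank ℂ V + s := by
  have e : genP s V ≃ₗ[ℂ] (V × EuclideanSpace ℂ (Fin s)) :=
    { toFun := fun x => (⟨genFst J s x.1, x.2⟩, (WithLp.ofLp x.1).2)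
      map_add' := fun x y => rfl
      map_smul' := fun c x => rfl
      invFun := fun y => ⟨WithLp.toLp 2 (y.1.1, y.2), y.1.2⟩
      left_inv := fun x => by
        rfl
      right_inv := fun y => by
        rfl }
  rw [e.finrank_eq, Module.finrank_prod]
  simp

theorem gsum_norm {J : Type} [Fintype J] {s : ℕ} (u : EuclideanSpace ℂ J)
    (w : EuclideanSpace ℂ (Fin s)) :
    ‖(WithLp.toLp 2 (u, w) : Gsum J s)‖ ^ 2 = ‖u‖ ^ 2 + ‖w‖ ^ 2 := by
  rw [WithLp.prod_norm_sq_eq_of_L2]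
  rfl

theorem gsum_norm_inl {J : Type} [Fintype J] {s : ℕ} (u : EuclideanSpace ℂ J) :
    ‖(WithLp.toLp 2 (u, 0) : Gsum J s)‖ = ‖u‖ := by
  have h := gsum_norm (s := s) u 0
  rw [norm_zero, zero_pow two_ne_zero, add_zero] at h
  exact (sq_eq_sq₀ (norm_nonneg _) (norm_nonneg _)).1 h

theorem gsum_norm_inr {J : Type} [Fintype J] {s : ℕ} (w : EuclideanSpace ℂ (Fin s)) :
    ‖(WithLp.toLp 2 (0, w) : Gsum J s)‖ = ‖w‖ := by
  have h := gsum_norm (J := J) 0 w
  rw [norm_zero, zero_pow two_ne_zero, zero_add] at h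
  exact (sq_eq_sq₀ (norm_nonneg _) (norm_nonneg _)).1 h

def genI1 (J : Type) [Fintype J] (s : ℕ) : EuclideanSpace ℂ J →L[ℂ] Gsum J s :=
  LinearMap.mkContinuous
    { toFun := fun u => WithLp.toLp 2 (u, 0)
      map_add' := fun x y => by
        have e : ((x + y, 0) : EuclideanSpace ℂ J × EuclideanSpace ℂ (Fin s)) =
          (x, 0) + (y, 0) := by rw [Prod.mk_add_mk, add_zero]
        rw [e]
        exact WithLp.toLp_add 2 _ _
      map_smul' := fun c x => by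
        have e : ((c • x, 0) : EuclideanSpace ℂ J × EuclideanSpace ℂ (Fin s)) =
          c • (x, 0) := by rw [Prod.smul_mk, smul_zero]
        rw [e]
        exact WithLp.toLp_smul 2 c _ } 1 (fun u => by
      rw [one_mul]
      exact (gsum_norm_inl u).le)

def genI0 (J : Type) [Fintype J] (s : ℕ) : EuclideanSpace ℂ (Fin s) →L[ℂ] Gsum J s :=
  LinearMap.mkContinuous
    { toFun := fun u => WithLp.toLp 2 (0, u)
      map_add' := fun x y => by
        have e : ((0, x + y) : EuclideanSpace ℂ J × EuclideanSpace ℂ (Fin s)) =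
          (0, x) + (0, y) := by rw [Prod.mk_add_mk, add_zero]
        rw [e]
        exact WithLp.toLp_add 2 _ _
      map_smul' := fun c x => by
        have e : ((0, c • x) : EuclideanSpace ℂ J × EuclideanSpace ℂ (Fin s)) =
          c • (0, x) := by rw [Prod.smul_mk, smul_zero]
        rw [e]
        exact WithLp.toLp_smul 2 c _ } 1 (fun u => by
      rw [one_mul]
      exact (gsum_norm_inr u).le)

theorem gen_split {J : Type} [Fintype J] {s : ℕ} (u : EuclideanSpace ℂ J)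
    (w : EuclideanSpace ℂ (Fin s)) : genI1 J s u + genI0 J s w = WithLp.toLp 2 (u, w) := by
  show (WithLp.toLp 2 (u, 0) : Gsum J s) + WithLp.toLp 2 (0, w) = _
  rw [← WithLp.toLp_add]
  simp

theorem gen (hV : VOLStmt) (hL : LAStmt) : GENStmt := by
  intro J ι _ _ _ s d A B hA hB κ ε hκ hε K hK hdim
  obtain ⟨L, hL0, hLA, hLB⟩ : ∃ L : ℝ, 0 < L ∧ (∀ i, ‖A i‖ ≤ L) ∧ (∀ i, ‖B i‖ ≤ L) := by
    refine ⟨1 + ∑ i, ‖A i‖ + ∑ i, ‖B i‖, by positivity, fun i => ?_, fun i => ?_⟩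
    · have := Finset.single_le_sum (f := fun i => ‖A i‖) (fun j _ => norm_nonneg _)
        (Finset.mem_univ i)
      have h2 : 0 ≤ ∑ i, ‖B i‖ := by positivity
      linarith
    · have := Finset.single_le_sum (f := fun i => ‖B i‖) (fun j _ => norm_nonneg _)
        (Finset.mem_univ i)
      have h2 : 0 ≤ ∑ i, ‖A i‖ := by positivity
      linarith
  obtain ⟨K₀, hK₀, hK₀pos⟩ : ∃ K₀ : ℝ, (2 * d * L) * (2 / κ + 4 / ε) ≤ K₀ / 4 ∧ 0 < K₀ := by
    refine ⟨4 * ((2 * d * L) * (2 / κ + 4 / ε)) + 1, by linarith, by positivity⟩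
  obtain ⟨δ₀, hδ₀, hvol⟩ := hV (Gsum J s) (EuclideanSpace ℂ J) d
    (2 ^ Fintype.card ι * 2 ^ d) K₀ (by positivity) hK₀pos
  obtain ⟨G, hG⟩ := exists_nat_gt (max (1 / δ₀) (8 * d * L / κ))
  have hG1 : 1 / δ₀ < G := (le_max_left _ _).trans_lt hG
  have hG2 : 8 * d * L / κ < G := (le_max_right _ _).trans_lt hG
  have hGpos : (0 : ℝ) < G := lt_trans (by positivity) hG1
  have hGnat : 0 < G := by exact_mod_cast hGpos
  obtain ⟨S, hSK, hScard, hSdense⟩ := gen_cells d K hK G hGnat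
  obtain ⟨δ, hδdef⟩ : ∃ δ : ℝ, δ = 1 / G := ⟨_, rfl⟩
  have hδ : 0 < δ := by rw [hδdef]; positivity
  have hδle : δ ≤ δ₀ := by
    rw [hδdef, div_le_iff₀ hGpos]
    rw [div_lt_iff₀ hδ₀] at hG1
    linarith
  let Q : (ι → ℝ) → Submodule ℂ (Gsum J s) × Submodule ℂ (EuclideanSpace ℂ J) := fun p =>
    (genP s (specAbove (∑ i, p i • A i) (κ / 2)), specAbove (∑ i, p i • B i) ε)
  obtain ⟨z, hz, hzS⟩ := hvol δ hδ hδle (S.image Q) (by
      intro P hP
      rw [Finset.mem_image] at hP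
      obtain ⟨p, hp, rfl⟩ := hP
      have := hdim p (hSK hp)
      show 2 * Module.finrank ℂ (genP s (specAbove (∑ i, p i • A i) (κ / 2))) + d <
        2 * Module.finrank ℂ (specAbove (∑ i, p i • B i) ε)
      rw [finrank_genP]
      exact this) (by
      have h1 : ((S.image Q).card : ℝ) ≤ 2 ^ Fintype.card ι * (G + 1) ^ d := by
        have := Finset.card_image_le (s := S) (f := Q)
        exact_mod_cast this.trans hScard
      calc ((S.image Q).card : ℝ) * δ ^ d ≤ (2 ^ Fintype.card ι * (G + 1) ^ d) * δ ^ d := by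
            gcongr
        _ = 2 ^ Fintype.card ι * ((G + 1) * δ) ^ d := by rw [mul_pow]; ring
        _ ≤ 2 ^ Fintype.card ι * 2 ^ d := by
            have h2 : ((G : ℝ) + 1) * δ ≤ 2 := by
              rw [hδdef, mul_one_div, div_le_iff₀ hGpos]
              have : (1 : ℝ) ≤ G := by exact_mod_cast hGnat
              linarith
            gcongr)
  -- the matrices
  refine ⟨z ∘L genI1 J s, z ∘L genI0 J s, (K₀ * δ / 8) ^ 2, by positivity, ?_⟩
  intro p hp u hu w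
  obtain ⟨p', hp'S, hpp'⟩ := hSdense p hp
  have hp' := hSK hp'S
  have hAp := gen_sum_nonneg A hA p (hK p hp).1
  have hAp' := gen_sum_nonneg A hA p' (hK p' hp').1
  have hBp := gen_sum_nonneg B hB p (hK p hp).1
  have hBp' := gen_sum_nonneg B hB p' (hK p' hp').1
  obtain ⟨η, hηdef⟩ : ∃ η : ℝ, η = 2 * d * L * δ := ⟨_, rfl⟩
  have hη0 : 0 ≤ η := by rw [hηdef]; positivity
  have hpp2 : (∑ i, |p i - p' i|) * L ≤ η := by
    rw [hηdef]
    calc (∑ i, |p i - p' i|) * L ≤ (2 * d / G) * L := by gcongr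
      _ = 2 * d * L * δ := by rw [hδdef]; ring
  have hdA : ‖∑ i, p i • A i - ∑ i, p' i • A i‖ ≤ η := (gen_sum_dist A p p' L hLA).trans hpp2
  have hdB : ‖∑ i, p' i • B i - ∑ i, p i • B i‖ ≤ η := by
    rw [norm_sub_rev]
    exact (gen_sum_dist B p p' L hLB).trans hpp2
  obtain ⟨u', hu', huu', hu'n, -⟩ := (hL.2 (EuclideanSpace ℂ J) _ hAp).1 _ (κ / 2) κ η hAp'
    (by positivity) (by linarith) hdA u hu
  obtain ⟨v, hv, hv1, hvz⟩ := hzS (Q p') (Finset.mem_image_of_mem Q hp'S)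
    (WithLp.toLp 2 (u', w)) (mem_genP s _ u' w hu')
  obtain ⟨v', hv', hvv', hv'n, -⟩ := (hL.2 (EuclideanSpace ℂ J) _ hBp').1 _ (3 * ε / 4) ε η hBp
    (by positivity) (by linarith) hdB v hv
  have hxn : ‖(WithLp.toLp 2 (u, w) : Gsum J s)‖ ^ 2 = ‖u‖ ^ 2 + ‖w‖ ^ 2 := gsum_norm u w
  have hu_le : ‖u‖ ≤ ‖(WithLp.toLp 2 (u, w) : Gsum J s)‖ := by
    refine abs_le_of_sq_le_sq' ?_ (norm_nonneg _) |>.2
    rw [hxn]; nlinarith [norm_nonneg w]
  have hxx' : ‖(WithLp.toLp 2 (u, w) : Gsum J s) - WithLp.toLp 2 (u', w)‖ = ‖u - u'‖ := by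
    have : (WithLp.toLp 2 (u, w) : Gsum J s) - WithLp.toLp 2 (u', w) = WithLp.toLp 2 (u - u', 0) := by
      rw [← WithLp.toLp_sub]
      simp
    rw [this]
    exact gsum_norm_inl _
  have hcore := gen_core z hz (WithLp.toLp 2 (u, w)) (WithLp.toLp 2 (u', w)) v v' hv1
    (2 * η / κ) (4 * η / ε) (K₀ * δ) (by
      rw [hxx']
      refine huu'.trans ?_
      have : η / (κ - κ / 2) = 2 * η / κ := by field_simp; ring
      rw [this]
      gcongr) (by
      refine hvv'.trans ?_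
      have : η / (ε - 3 * ε / 4) = 4 * η / ε := by field_simp; ring
      rw [this]
      calc 4 * η / ε * ‖v‖ ≤ 4 * η / ε * 1 := by gcongr
        _ = _ := mul_one _) hvz (by
      rw [div_le_div_iff₀ hκ (by norm_num), hηdef, hδdef]
      rw [div_lt_iff₀ hκ] at hG2
      have : 2 * (2 * ↑d * L * (1 / ↑G)) * 2 = (8 * d * L) / G := by ring
      rw [this, div_le_iff₀ hGpos]
      nlinarith) (by
      rw [hηdef]
      calc 2 * (2 * ↑d * L * δ) / κ + 4 * (2 * ↑d * L * δ) / ε =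
          (2 * d * L) * (2 / κ + 4 / ε) * δ := by ring
        _ ≤ K₀ / 4 * δ := by gcongr
        _ = K₀ * δ / 4 := by ring) (by positivity)
  have hlow := (hL.2 (EuclideanSpace ℂ J) _ hBp).2.2.1 (gTwo ε) (3 * ε / 4) (1 / 2)
    (by unfold gTwo clamp; fun_prop) (by norm_num) (fun t _ => by
      unfold gTwo clamp
      exact le_min zero_le_one (le_max_left _ _)) (fun t ht => by
      unfold gTwo clamp
      refine le_min (by norm_num) (le_max_of_le_right ?_)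
      have : 3 / 2 ≤ 2 * t / ε := by
        rw [div_le_div_iff₀ (by norm_num) hε]; linarith
      linarith) (z (WithLp.toLp 2 (u, w))) v' hv'
  have hsplit : (z ∘L genI1 J s) u + (z ∘L genI0 J s) w = z (WithLp.toLp 2 (u, w)) := by
    show z (genI1 J s u) + z (genI0 J s w) = _
    rw [← map_add, gen_split]
  rw [hsplit, ← hxn]
  have hv'1 : ‖v'‖ ≤ 1 := hv'n.trans hv1
  have hfin : K₀ * δ / 8 * ‖(WithLp.toLp 2 (u, w) : Gsum J s)‖ ≤
      ‖cfc (gTwo ε) (∑ i, p i • B i) (z (WithLp.toLp 2 (u, w)))‖ := by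
    have h1 : ‖v'‖ * ‖cfc (gTwo ε) (∑ i, p i • B i) (z (WithLp.toLp 2 (u, w)))‖ ≤
        ‖cfc (gTwo ε) (∑ i, p i • B i) (z (WithLp.toLp 2 (u, w)))‖ := by
      have := norm_nonneg (cfc (gTwo ε) (∑ i, p i • B i) (z (WithLp.toLp 2 (u, w))))
      nlinarith
    linarith
  calc (K₀ * δ / 8) ^ 2 * ‖(WithLp.toLp 2 (u, w) : Gsum J s)‖ ^ 2 =
      (K₀ * δ / 8 * ‖(WithLp.toLp 2 (u, w) : Gsum J s)‖) ^ 2 := by ring
    _ ≤ _ := by gcongr

end Pool.Agent.H36.RC
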